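import Mathlib

set_option autoImplicit false

namespace Pool.Agent.Results.MP_7bc96b_al.Bound

open Finset

variable {X : Type*} [AddCommGroup X] {n : ℕ}

/-- the zero-sum exponent vectors supported in `I`, as integer vectors -/
def B (χ : Fin n → X) (I : Finset (Fin n)) : Set (Fin n → ℤ) :=
  {m | (∀ i, 0 ≤ m i) ∧ (∀ i ∉ I, m i = 0) ∧ ∑ i, m i • χ i = 0}

/-- the invariant `τ` -/
noncomputable def tau (χ : Fin n → X) : ℕ :=
  sInf {t | ∀ I, AddSubgroup.closure (B χ I) =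
    AddSubgroup.closure (⋃ J, ⋃ (_ : J ⊆ I ∧ #J ≤ t), B χ J)}

theorem dep [Module.Finite ℤ X] (v : Fin n → X) (T : Finset (Fin n))
    (h : Module.finrank ℤ X < #T) :
    ∃ c : Fin n → ℤ, (∀ i ∉ T, c i = 0) ∧ ∑ i, c i • v i = 0 ∧ ∃ i, 0 < c i := by
  have : ¬ LinearIndependent ℤ fun i : T => v i := fun h' => by
    have := h'.fintype_card_le_finrank
    simp at this; omega
  obtain ⟨g, h1, i, hi⟩ := Fintype.not_linearIndependent_iff.1 this
  have key : ∀ g : T → ℤ, ∑ i, g i • v i = 0 → 0 < g i →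
      ∃ c : Fin n → ℤ, (∀ i ∉ T, c i = 0) ∧ ∑ i, c i • v i = 0 ∧ ∃ i, 0 < c i := fun g h1 hi => by
    refine ⟨fun i => if h : i ∈ T then g ⟨i, h⟩ else 0, fun i h => dif_neg h, ?_, i, by simpa⟩
    rw [← h1, ← sum_subset (subset_univ T) fun i _ h => by simp [h], ← sum_coe_sort]
    simp
  rcases hi.lt_or_gt with hi | hi
  · exact key (-g) (by simpa using h1) (by simpa)
  · exact key g h1 hi

theorem car [Module.Finite ℤ X] (χ : Fin n → X) (A : Finset (Fin n)) :
    ∀ (S : Finset (Fin n)) (m : Fin n → ℤ), m ∈ B χ (A ∪ S) → (∀ i ∈ A, 0 < m i) →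
      ∃ T ⊆ S, #T ≤ Module.finrank ℤ X ∧ ∃ m' ∈ B χ (A ∪ T), ∀ i ∈ A, 0 < m' i := by
  intro S
  induction S using Finset.strongInduction with
  | H S ih =>
  intro m hm hA
  have step : ∀ b ∈ S, ∀ m' ∈ B χ (A ∪ S), (∀ i ∈ A, 0 < m' i) → (b ∉ A → m' b = 0) →
      ∃ T ⊆ S, #T ≤ Module.finrank ℤ X ∧ ∃ m' ∈ B χ (A ∪ T), ∀ i ∈ A, 0 < m' i := by
    intro b hb m' h1 h2 h3
    obtain ⟨T, hT, h⟩ := ih _ (erase_ssubset hb) m' ⟨h1.1, fun i hi => by
      by_cases e : i = b
      · subst e; exact h3 (by simpa using hi)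
      · exact h1.2.1 i (by simpa [e] using hi), h1.2.2⟩ h2
    exact ⟨T, hT.trans (erase_subset _ _), h⟩
  by_cases h0 : ∃ b ∈ S, b ∉ A → m b = 0
  · obtain ⟨b, hb, h⟩ := h0
    exact step b hb m hm hA h
  push Not at h0
  by_cases h : #S ≤ Module.finrank ℤ X
  · exact ⟨S, Subset.rfl, h, m, hm, hA⟩
  obtain ⟨c, h1, h2, i, hi⟩ := dep χ S (not_le.1 h)
  have hiS : i ∈ S := by by_contra h; simp [h1 i h] at hi
  have hp : ∀ j ∈ S, (0 : ℚ) < m j := fun j hj => by
    exact_mod_cast (hm.1 j).lt_of_ne' (h0 j hj).2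
  obtain ⟨b, hb, hmax⟩ := exists_max_image S (fun j => (c j : ℚ) / m j) ⟨i, hiS⟩
  have hcb : 0 < c b := by
    have := (div_pos (by exact_mod_cast hi) (hp i hiS)).trans_le (hmax i hiS)
    exact_mod_cast (div_pos_iff_of_pos_right (hp b hb)).1 this
  refine step b hb (c b • m - m b • c) ⟨fun j => ?_, fun j hj => ?_, ?_⟩ (fun j hj => ?_)
    fun _ => by simp [mul_comm]
  · by_cases hj : j ∈ S
    · have := (div_le_div_iff₀ (hp j hj) (hp b hb)).1 (hmax j hj)
      have : c j * m b ≤ c b * m j := by exact_mod_cast this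
      simp; linarith
    · simpa [h1 j hj] using mul_nonneg hcb.le (hm.1 j)
  · simp [hm.2.1 j hj, h1 j fun h => hj (mem_union_right _ h)]
  · simp only [Pi.sub_apply, Pi.smul_apply, smul_eq_mul, sub_smul, mul_smul, sum_sub_distrib,
      ← smul_sum, h2, hm.2.2, smul_zero, sub_zero]
  · simpa [h1 j fun h => (h0 j h).1 hj] using mul_pos hcb (hA j hj)

theorem prim [AddGroup.FG X] (χ : Fin n → X) (T : Finset (Fin n)) (h : AddGroup.rank X < #T) :
    ∃ c : Fin n → ℤ, (∀ i ∉ T, c i = 0) ∧ ∑ i, c i • χ i = 0 ∧ univ.gcd c = 1 := by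
  obtain ⟨S, h1, h2⟩ := AddGroup.rank_spec X
  have hs : ∀ x : X, ∃ y : S → ℤ, Fintype.linearCombination ℤ Subtype.val y = x := fun x => by
    have : x ∈ LinearMap.range (Fintype.linearCombination ℤ (Subtype.val : S → X)) := by
      rw [Fintype.range_linearCombination, Subtype.range_coe, ← Submodule.mem_toAddSubgroup,
        Submodule.span_int_eq_addSubgroupClosure, h2]
      trivial
    exact this
  choose y hy using hs
  obtain ⟨c, c1, c2, i, hi⟩ := dep (fun i => y (χ i)) T (by simpa [h1] using h)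
  obtain ⟨g, g1, g2⟩ := extract_gcd c ⟨i, mem_univ i⟩
  have h0 : univ.gcd c ≠ 0 := fun h => hi.ne' (gcd_eq_zero_iff.1 h i (mem_univ i))
  refine ⟨g, fun j hj => (mul_eq_zero.1 ((g1 j (mem_univ j)).symm.trans (c1 j hj))).resolve_left h0,
    ?_, g2⟩
  have : ∑ i, g i • y (χ i) = 0 := by
    refine (smul_eq_zero_iff_right h0).1 ?_
    rw [smul_sum, ← c2]
    exact sum_congr rfl fun j hj => by rw [smul_smul, ← g1 j hj]
  have := congrArg (Fintype.linearCombination ℤ (Subtype.val : S → X)) this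
  simpa only [map_sum, map_smul, hy, map_zero] using this

theorem result (X : Type*) [AddCommGroup X] [AddGroup.FG X] (n : ℕ) (χ : Fin n → X) :
    tau χ ≤ 1 + Module.finrank ℤ X + AddGroup.rank X := by
  have : Module.Finite ℤ X := Module.Finite.iff_addGroup_fg.2 ‹_›
  refine Nat.sInf_le fun I => le_antisymm ((AddSubgroup.closure_le _).2 fun m0 hm0 => ?_)
    (AddSubgroup.closure_mono (Set.iUnion₂_subset fun J hJ m hm =>
      ⟨hm.1, fun i hi => hm.2.1 i fun h => hi (hJ.1 h), hm.2.2⟩))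
  set L := AddSubgroup.closure
    (⋃ J, ⋃ (_ : J ⊆ I ∧ #J ≤ 1 + Module.finrank ℤ X + AddGroup.rank X), B χ J)
  have base : ∀ A ⊆ I, (∀ i ∈ A, 0 < m0 i) → #A ≤ AddGroup.rank X + 1 → ∀ m : Fin n → ℤ,
      (∀ i ∉ A, m i = 0) → ∑ i, m i • χ i = 0 → m ∈ L := fun A hA h1 h2 m h3 h4 => by
    obtain ⟨T, hT, h5, m', h6, h7⟩ := car χ A I m0 (by rwa [union_eq_right.2 hA]) h1
    have hL : ∀ x ∈ B χ (A ∪ T), x ∈ L := fun x hx => AddSubgroup.subset_closure
      (Set.mem_iUnion₂.2 ⟨_, ⟨union_subset hA hT, (card_union_le _ _).trans (by omega)⟩, hx⟩)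
    have h8 : ∀ i, |m i| ≤ ∑ j, |m j| := fun i =>
      single_le_sum (f := fun j => |m j|) (fun _ _ => abs_nonneg _) (mem_univ i)
    generalize ∑ j, |m j| = N at h8
    have := L.sub_mem (hL (m + N • m') ⟨fun i => ?_, fun i hi => ?_, ?_⟩) (L.zsmul_mem (hL _ h6) N)
    · simpa using this
    · by_cases hi : i ∈ A
      · have := h7 i hi
        have := abs_le.1 (h8 i)
        simp; nlinarith
      · simpa [h3 i hi] using mul_nonneg ((abs_nonneg _).trans (h8 i)) (h6.1 i)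
    · simp [h6.2.1 i hi, h3 i fun h => hi (mem_union_left _ h)]
    · simp only [Pi.add_apply, Pi.smul_apply, smul_eq_mul, add_smul, mul_smul, sum_add_distrib,
        ← smul_sum, h4, h6.2.2, smul_zero, add_zero]
  have main : ∀ A : Finset (Fin n), A ⊆ I → (∀ i ∈ A, 0 < m0 i) → ∀ m : Fin n → ℤ,
      (∀ i ∉ A, m i = 0) → ∑ i, m i • χ i = 0 → m ∈ L := by
    intro A
    induction A using Finset.strongInduction with
    | H A ih =>
    intro hA h1 m h3 h4
    by_cases h2 : #A ≤ AddGroup.rank X + 1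
    · exact base A hA h1 h2 m h3 h4
    obtain ⟨T, hT, h5⟩ := exists_subset_card_eq (s := A) (n := AddGroup.rank X + 1) (by omega)
    obtain ⟨c, c1, c2, c3⟩ := prim χ T (by omega)
    have hc := base T (hT.trans hA) (fun i hi => h1 i (hT hi)) h5.le c c1 c2
    obtain ⟨g, hg⟩ := gcd_eq_sum_mul univ c
    rw [← one_smul ℤ m, ← c3, hg, sum_smul]
    refine L.sum_mem fun s _ => ?_
    rw [mul_comm, mul_smul]
    refine L.zsmul_mem ?_ _
    by_cases hs : s ∈ T
    · have := L.add_mem (ih _ (erase_ssubset (hT hs)) ((erase_subset _ _).trans hA)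
        (fun i hi => h1 i (mem_of_mem_erase hi)) (c s • m - m s • c) (fun i hi => ?_) ?_)
        (L.zsmul_mem hc (m s))
      · simpa using this
      · by_cases e : i = s
        · simp [e, mul_comm]
        · have : i ∉ A := by simpa [e] using hi
          simp [h3 i this, c1 i fun h => this (hT h)]
      · simp only [Pi.sub_apply, Pi.smul_apply, smul_eq_mul, sub_smul, mul_smul, sum_sub_distrib,
          ← smul_sum, h4, c2, smul_zero, sub_zero]
    · rw [c1 s hs, zero_smul]; exact L.zero_mem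
  refine main (I.filter fun i => 0 < m0 i) (filter_subset _ _) (fun i hi => (mem_filter.1 hi).2)
    m0 (fun i hi => ?_) hm0.2.2
  by_cases h : i ∈ I
  · exact le_antisymm (by simpa [h] using hi) (hm0.1 i)
  · exact hm0.2.1 i h

end Pool.Agent.Results.MP_7bc96b_al.Bound
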